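import Pool.Agent.LC5.Stmts

set_option autoImplicit false

open Topology

namespace Pool.Agent.LC5.H56

open Pool.Agent.LCK Pool.Agent.LC5

theorem e3_ext (x y : E3) (h0 : x 0 = y 0) (h1 : x 1 = y 1) (h2 : x 2 = y 2) : x = y := by
  ext i
  fin_cases i
  · exact h0
  · exact h1
  · exact h2

theorem pt_apply (v : Fin 6 → E3) (p : ℝ × ℝ × ℝ) (i : Fin 3) :
    pt v p i = v 1 i + (p.1 * (v 3 i - v 1 i) + p.2.1 * (v 2 i - v 1 i) +
      p.2.2 * (v 4 i - v 1 i)) := by
  simp [pt]

theorem det3_sub_apply (v : Fin 6 → E3) : dt v =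
    (v 3 0 - v 1 0) * ((v 2 1 - v 1 1) * (v 4 2 - v 1 2) - (v 2 2 - v 1 2) * (v 4 1 - v 1 1)) -
    (v 3 1 - v 1 1) * ((v 2 0 - v 1 0) * (v 4 2 - v 1 2) - (v 2 2 - v 1 2) * (v 4 0 - v 1 0)) +
    (v 3 2 - v 1 2) * ((v 2 0 - v 1 0) * (v 4 1 - v 1 1) - (v 2 1 - v 1 1) * (v 4 0 - v 1 0)) := by
  simp [dt, det3]

theorem crd' : CRDStmt := by
  intro v hv
  refine ⟨?_, ?_, ?_⟩
  · intro X
    have hd := det3_sub_apply v
    apply e3_ext
    all_goals
      rw [pt_apply]
      simp only [crd, det3, PiLp.sub_apply]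
      rw [← sub_eq_zero]
      field_simp
      rw [hd]
      ring
  · rintro ⟨a, b, c⟩
    have hd := det3_sub_apply v
    simp only [crd, Prod.mk.injEq]
    refine ⟨?_, ?_, ?_⟩
    all_goals
      rw [div_eq_iff hv, hd]
      simp only [det3, PiLp.sub_apply, pt_apply]
      ring
  · intro X
    have h1 : ∀ i : Fin 6, ∀ j : Fin 3, Continuous (fun q : (Fin 6 → E3) × E3 => q.1 i j) := by
      intro i j
      fun_prop
    have h2 : ∀ j : Fin 3, Continuous (fun q : (Fin 6 → E3) × E3 => q.2 j) := by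
      intro j
      fun_prop
    have hdt : Continuous (fun q : (Fin 6 → E3) × E3 => dt q.1) := by
      simp only [det3_sub_apply]
      fun_prop
    unfold crd
    refine ContinuousAt.prodMk ?_ (ContinuousAt.prodMk ?_ ?_)
    all_goals
      refine ContinuousAt.div ?_ hdt.continuousAt hv
      apply Continuous.continuousAt
      simp only [det3, PiLp.sub_apply]
      fun_prop

end Pool.Agent.LC5.H56
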