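import Pool.Agent.LC5.Stmts

set_option autoImplicit false

open Topology

namespace Pool.Agent.LC5.H56

open Pool.Agent.LCK Pool.Agent.LC5

theorem pt_comb (v : Fin 6 → E3) (p q : ℝ × ℝ × ℝ) (s : ℝ) :
    pt v ((1 - s) • p + s • q) = (1 - s) • pt v p + s • pt v q := by
  unfold pt
  simp only [Prod.fst_add, Prod.snd_add, Prod.smul_fst, Prod.smul_snd, smul_eq_mul]
  module

theorem mem_seg_pt (v : Fin 6 → E3) (p q : ℝ × ℝ × ℝ) (x : E3) :
    x ∈ segment ℝ (pt v p) (pt v q) ↔
      ∃ s : ℝ, 0 ≤ s ∧ s ≤ 1 ∧ pt v ((1 - s) • p + s • q) = x := by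
  rw [segment_eq_image]
  constructor
  · rintro ⟨s, hs, rfl⟩
    exact ⟨s, hs.1, hs.2, pt_comb v p q s⟩
  · rintro ⟨s, h0, h1, rfl⟩
    exact ⟨s, ⟨h0, h1⟩, (pt_comb v p q s).symm⟩

theorem djc' (crdh : CRDStmt) : DJCStmt := by
  intro v hv p q p' q'
  have hinj : Function.Injective (pt v) := by
    intro a b hab
    have ha := (crdh v hv).2.1 a
    have hb := (crdh v hv).2.1 b
    rw [← ha, ← hb, hab]
  constructor
  · unfold Dj
    constructor
    · intro h s t hs0 hs1 ht0 ht1 heq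
      have hmem : pt v ((1 - s) • p + s • q) ∈
          segment ℝ (pt v p) (pt v q) ∩ segment ℝ (pt v p') (pt v q') := by
        refine ⟨(mem_seg_pt v p q _).2 ⟨s, hs0, hs1, rfl⟩,
          (mem_seg_pt v p' q' _).2 ⟨t, ht0, ht1, ?_⟩⟩
        rw [heq]
      rw [h] at hmem
      exact hmem
    · intro h
      ext x
      simp only [Set.mem_inter_iff, Set.mem_empty_iff_false, iff_false]
      rintro ⟨h1, h2⟩
      obtain ⟨s, hs0, hs1, hsx⟩ := (mem_seg_pt v p q x).1 h1
      obtain ⟨t, ht0, ht1, htx⟩ := (mem_seg_pt v p' q' x).1 h2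
      exact h s t hs0 hs1 ht0 ht1 (hinj (hsx.trans htx.symm))
  · unfold Hi
    have e1 : ∀ s : ℝ, (1 - s) • q + s • p = q + s • (p - q) := by
      intro s
      module
    have e2 : ∀ s : ℝ, (1 - s) • q + s • p' = q + s • (p' - q) := by
      intro s
      module
    rw [segment_symm ℝ (pt v p) (pt v q)]
    constructor
    · intro h s t hs0 hs1 ht0 ht1 heq
      have hmem : pt v ((1 - s) • q + s • p) ∈
          segment ℝ (pt v q) (pt v p) ∩ segment ℝ (pt v q) (pt v p') := by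
        refine ⟨(mem_seg_pt v q p _).2 ⟨s, hs0, hs1, rfl⟩,
          (mem_seg_pt v q p' _).2 ⟨t, ht0, ht1, ?_⟩⟩
        rw [e1, e2, heq]
      rw [h, Set.mem_singleton_iff] at hmem
      have h3 := hinj hmem
      rw [e1] at h3
      exact add_eq_left.1 h3
    · intro h
      ext x
      simp only [Set.mem_inter_iff, Set.mem_singleton_iff]
      constructor
      · rintro ⟨h1, h2⟩
        obtain ⟨s, hs0, hs1, hsx⟩ := (mem_seg_pt v q p x).1 h1
        obtain ⟨t, ht0, ht1, htx⟩ := (mem_seg_pt v q p' x).1 h2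
        have h3 := hinj (hsx.trans htx.symm)
        rw [e1, e2] at h3
        have h4 := h s t hs0 hs1 ht0 ht1 (add_left_cancel h3)
        rw [← hsx, e1, h4, add_zero]
      · rintro rfl
        exact ⟨left_mem_segment ℝ _ _, left_mem_segment ℝ _ _⟩

end Pool.Agent.LC5.H56
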